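import Pool.Agent.Y381.UC.Defs

/-! # Recolouring one vertex of a cycle -/

set_option autoImplicit false

open Finset Pool.Agent.TH996.Urn

namespace Pool.Agent.Y177.UC

open Pool.Agent.Y381.UC

variable {n s : ℕ}

open Classical in
/-- indicator of a colour change -/
noncomputable def ind (a b : Fin s) : ℕ := if a = b then 0 else 1

open Classical in
/-- sign of a pair of colours -/
noncomputable def sg (a b : Fin s) : ℝ := if a = b then 1 else -1

theorem cuts_eq (χ : Fin (n + 4) → Fin s) : cuts χ = ∑ v, ind (χ v) (χ (v + 1)) := by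
  classical
  unfold cuts
  rw [Finset.card_filter]
  refine Finset.sum_congr rfl fun v _ => ?_
  unfold ind
  by_cases h : χ v = χ (v + 1)
  · rw [if_pos h, if_neg (fun h' => h' h)]
  · rw [if_neg h, if_pos h]

theorem tau_eq (χ : Fin (n + 4) → Fin s) (v : Fin (n + 4)) : tau χ v = sg (χ v) (χ (v + 1)) := rfl

theorem one_ne : (1 : Fin (n + 4)) ≠ 0 := by
  intro h
  have := congrArg Fin.val h
  simp at this

theorem succ_ne (w : Fin (n + 4)) : w + 1 ≠ w := by
  intro h
  exact one_ne (add_eq_left.1 h)

theorem pred_ne (w : Fin (n + 4)) : w - 1 ≠ w := by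
  intro h
  have := sub_add_cancel w 1
  rw [h] at this
  exact succ_ne w this

theorem sum_two (h : Fin (n + 4) → ℕ) (p w : Fin (n + 4)) (hpw : p ≠ w) :
    ∑ z, h z = h p + h w + ∑ z ∈ (univ.erase p).erase w, h z := by
  rw [← Finset.add_sum_erase univ h (mem_univ p),
    ← Finset.add_sum_erase (univ.erase p) h (mem_erase.2 ⟨hpw.symm, mem_univ w⟩)]
  ring

theorem cuts_upd (χ : Fin (n + 4) → Fin s) (w : Fin (n + 4)) (c : Fin s) :
    cuts (Function.update χ w c) + (ind (χ (w - 1)) (χ w) + ind (χ w) (χ (w + 1))) =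
      cuts χ + (ind (χ (w - 1)) c + ind c (χ (w + 1))) := by
  classical
  rw [cuts_eq, cuts_eq, sum_two _ (w - 1) w (pred_ne w), sum_two (fun v => ind (χ v) (χ (v + 1)))
    (w - 1) w (pred_ne w)]
  have h1 : ∑ z ∈ (univ.erase (w - 1)).erase w,
      ind (Function.update χ w c z) (Function.update χ w c (z + 1)) =
      ∑ z ∈ (univ.erase (w - 1)).erase w, ind (χ z) (χ (z + 1)) := by
    refine Finset.sum_congr rfl fun z hz => ?_
    rw [mem_erase, mem_erase] at hz
    have h2 : z + 1 ≠ w := by
      intro h
      apply hz.2.1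
      rw [← h, add_sub_cancel_right]
    rw [Function.update_of_ne hz.1, Function.update_of_ne h2]
  rw [h1, sub_add_cancel, Function.update_self, Function.update_of_ne (pred_ne w),
    Function.update_of_ne (succ_ne w)]
  ring

theorem norm_om (n m : ℕ) : ‖om n m‖ = 1 := Complex.norm_exp_ofReal_mul_I _

theorem norm_sg (a b : Fin s) : ‖((sg a b : ℝ) : ℂ)‖ = 1 := by
  unfold sg
  split_ifs <;> simp

theorem phase_upd (χ : Fin (n + 4) → Fin s) (w : Fin (n + 4)) (c : Fin s)
    (u : Fin (n + 4) → ℂ) (hu : IsPhase χ u) (hc : cuts (Function.update χ w c) = cuts χ) (y : ℂ)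
    (hy : ‖y‖ = 1) (h1 : y = (sg (χ (w - 1)) c : ℂ) * om n (cuts χ) * u (w - 1))
    (h2 : u (w + 1) = (sg c (χ (w + 1)) : ℂ) * om n (cuts χ) * y) :
    IsPhase (Function.update χ w c) (Function.update u w y) := by
  classical
  refine ⟨fun v => ?_, fun v => ?_⟩
  · by_cases hv : v = w
    · subst hv
      rw [Function.update_self]
      exact hy
    · rw [Function.update_of_ne hv]
      exact hu.1 v
  · rw [tau_eq, hc]
    by_cases hv : v = w
    · subst hv
      rw [Function.update_self, Function.update_self, Function.update_of_ne (succ_ne v),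
        Function.update_of_ne (succ_ne v)]
      exact h2
    · by_cases hv' : v + 1 = w
      · have h3 : v = w - 1 := by rw [← hv', add_sub_cancel_right]
        rw [hv', Function.update_self, Function.update_self, Function.update_of_ne hv,
          Function.update_of_ne hv, h3]
        exact h1
      · rw [Function.update_of_ne hv, Function.update_of_ne hv, Function.update_of_ne hv',
          Function.update_of_ne hv']
        have h4 := hu.2 v
        rw [tau_eq] at h4
        exact h4

theorem sg_mul (a b c : Fin s) (h : ind a c = ind a b + ind b c) : sg a c = sg a b * sg b c := by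
  unfold ind at h
  unfold sg
  split_ifs at h ⊢ <;> simp_all

theorem sg_self (a : Fin s) : sg a a = 1 := by
  unfold sg
  rw [if_pos rfl]

theorem ind_self (a : Fin s) : ind a a = 0 := by
  unfold ind
  rw [if_pos rfl]

theorem ind_tri (a b c : Fin s) : ind a c ≤ ind a b + ind b c := by
  unfold ind
  split_ifs <;> simp_all

theorem t_UPD : Pool.Agent.Y381.UC.S_UPD := by
  classical
  intro n s χ v w hvw
  have hcu := cuts_upd χ w (χ v)
  have htri := ind_tri (χ (w - 1)) (χ w) (χ (w + 1))
  have hom : om n (cuts χ) ≠ 0 := by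
    intro h
    have := norm_om n (cuts χ)
    rw [h, norm_zero] at this
    exact zero_ne_one this
  have hsum : ind (χ (w - 1)) (χ v) + ind (χ v) (χ (w + 1)) = ind (χ (w - 1)) (χ (w + 1)) := by
    rcases hvw with h | h
    · have hv : v = w - 1 := by rw [h, add_sub_cancel_right]
      rw [hv, ind_self, zero_add]
    · rw [h, ind_self, add_zero]
  rw [hsum] at hcu
  refine ⟨by omega, fun hc u hu => ?_⟩
  have hi : ind (χ (w - 1)) (χ (w + 1)) = ind (χ (w - 1)) (χ w) + ind (χ w) (χ (w + 1)) := by
    omega
  have hsg := sg_mul _ _ _ hi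
  have hp := hu.2 (w - 1)
  rw [sub_add_cancel, tau_eq, sub_add_cancel] at hp
  have hw := hu.2 w
  rw [tau_eq] at hw
  rcases hvw with h | h
  · have hv : v = w - 1 := by rw [h, add_sub_cancel_right]
    subst hv
    refine ⟨Function.update u w (om n (cuts χ) * u (w - 1)), ?_,
      fun z hz => Function.update_of_ne hz _ _⟩
    apply phase_upd χ w _ u hu hc
    · rw [norm_mul, norm_om, hu.1, one_mul]
    · rw [sg_self, Complex.ofReal_one, one_mul]
    · rw [hw, hp, hsg]
      push_cast
      ring
  · subst h
    refine ⟨Function.update u w ((om n (cuts χ))⁻¹ * u (w + 1)), ?_,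
      fun z hz => Function.update_of_ne hz _ _⟩
    apply phase_upd χ w _ u hu hc
    · rw [norm_mul, norm_inv, norm_om, hu.1, inv_one, one_mul]
    · rw [hw, hp, hsg]
      push_cast
      field_simp
    · rw [sg_self, Complex.ofReal_one, one_mul, ← mul_assoc, mul_inv_cancel₀ hom, one_mul]

end Pool.Agent.Y177.UC
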